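import Pool.Agent.N722.FD.U.Tab

set_option autoImplicit false
set_option maxRecDepth 100000

namespace Pool.Agent.N722.FD.U

theorem ck0 : chk 0 0 0 0 = true := by decide +kernel
theorem ck1 : chk 0 0 1 2 = true := by decide +kernel
theorem ck2 : chk 0 0 2 1 = true := by decide +kernel
theorem ck3 : chk 1 2 0 0 = true := by decide +kernel
theorem ck4 : chk 1 2 1 2 = true := by decide +kernel
theorem ck5 : chk 1 2 2 1 = true := by decide +kernel
theorem ck6 : chk 2 1 0 0 = true := by decide +kernel
theorem ck7 : chk 2 1 1 2 = true := by decide +kernel
theorem ck8 : chk 2 1 2 1 = true := by decide +kernel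
theorem cg1 : chk1 = true := by decide +kernel
theorem cg3_0 : chk3 0 = true := by decide +kernel
theorem cg3_1 : chk3 1 = true := by decide +kernel
theorem cg3_2 : chk3 2 = true := by decide +kernel
theorem cg3_3 : chk3 3 = true := by decide +kernel
theorem cg3_4 : chk3 4 = true := by decide +kernel
theorem cg3_5 : chk3 5 = true := by decide +kernel
theorem cg3_6 : chk3 6 = true := by decide +kernel
theorem cg3_7 : chk3 7 = true := by decide +kernel
theorem cg3_8 : chk3 8 = true := by decide +kernel
theorem cg3_9 : chk3 9 = true := by decide +kernel
theorem cg3_10 : chk3 10 = true := by decide +kernel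
theorem cg3_11 : chk3 11 = true := by decide +kernel
theorem cg3_12 : chk3 12 = true := by decide +kernel
theorem cg3_13 : chk3 13 = true := by decide +kernel
theorem cg3_14 : chk3 14 = true := by decide +kernel
theorem cg3_15 : chk3 15 = true := by decide +kernel
theorem cg3_16 : chk3 16 = true := by decide +kernel
theorem cg3_17 : chk3 17 = true := by decide +kernel
theorem cg3_18 : chk3 18 = true := by decide +kernel
theorem cg3_19 : chk3 19 = true := by decide +kernel
theorem cg3_20 : chk3 20 = true := by decide +kernel
theorem cg3_21 : chk3 21 = true := by decide +kernel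
theorem cg3_22 : chk3 22 = true := by decide +kernel
theorem cg3_23 : chk3 23 = true := by decide +kernel
theorem cg3_24 : chk3 24 = true := by decide +kernel
theorem cg3_25 : chk3 25 = true := by decide +kernel
theorem cg3_26 : chk3 26 = true := by decide +kernel

end Pool.Agent.N722.FD.U
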